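import Pool.Agent.H466.HN.N3

/-!
# The de Bruijn–Newman flow of `ξ` at all real times
-/

set_option autoImplicit false

open Complex MeasureTheory Filter Topology Set
open scoped ComplexConjugate

namespace Pool.Agent.H466.HN

open Pool.Agent.H466.HF Pool.Agent.H466.LD Pool.Agent.H466.HP

/-- the flow at the time `lam`, as a Gaussian average of `ξ` -/
noncomputable def flow (lam : ℝ) (s : ℂ) : ℂ :=
  ((1 / Real.sqrt Real.pi : ℝ) : ℂ) *
    ∫ v : ℝ, xi (s + 2 * (lam : ℂ) ^ (1 / 2 : ℂ) * v) * (Real.exp (-v ^ 2) : ℂ)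

lemma cpow_half_sq (lam : ℝ) : ((lam : ℂ) ^ (1 / 2 : ℂ)) ^ 2 = (lam : ℂ) := by
  rw [← Complex.cpow_nat_mul]
  norm_num

/-- Gaussian average with a complex parameter -/
lemma avg {g : ℝ → ℂ} {A c : ℝ} (k : Kern g A c) (r z : ℂ) :
    ∫ v : ℝ, LL g 0 (z + 2 * r * v) * (Real.exp (-v ^ 2) : ℂ) =
      (Real.sqrt Real.pi : ℂ) * ∫ u : ℝ, g u * cexp (r ^ 2 * (u : ℂ) ^ 2 + z * u) := by
  have h1 : ∀ v : ℝ, LL g 0 (z + 2 * r * v) * (Real.exp (-v ^ 2) : ℂ) =
      ∫ u : ℝ, (g u * cexp (z * u)) *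
        (cexp ((v : ℂ) * (2 * r * u)) * (Real.exp (-v ^ 2) : ℂ)) := by
    intro v
    rw [LL_zero, ← integral_mul_const]
    refine integral_congr_ae (Eventually.of_forall fun u => ?_)
    simp only
    have e : (z + 2 * r * v) * u = z * u + (v : ℂ) * (2 * r * u) := by ring
    rw [e, Complex.exp_add]
    ring
  simp_rw [h1]
  have hint : Integrable (Function.uncurry fun (v u : ℝ) => (g u * cexp (z * u)) *
        (cexp ((v : ℂ) * (2 * r * u)) * (Real.exp (-v ^ 2) : ℂ)))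
      ((volume : Measure ℝ).prod volume) := by
    have i1 : Integrable (fun v : ℝ => Real.exp (-(1 / 2) * v ^ 2)) :=
      integrable_exp_neg_mul_sq (by norm_num)
    obtain ⟨C, hC, hb⟩ := k.term |z.re| (2 * ‖r‖ ^ 2)
    refine (i1.mul_prod (gauss_int.const_mul C)).mono' ?_ (Eventually.of_forall fun p => ?_)
    · have := k.cont
      refine Continuous.aestronglyMeasurable ?_
      unfold Function.uncurry
      fun_prop
    · obtain ⟨v, u⟩ := p
      simp only [Function.uncurry]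
      rw [norm_mul, norm_mul, norm_mul (cexp ((v : ℂ) * (2 * r * u))), Complex.norm_real,
        Real.norm_eq_abs, abs_of_pos (Real.exp_pos _)]
      have e1 : ‖cexp (z * u)‖ ≤ Real.exp (|z.re| * |u|) := by
        rw [Complex.norm_exp]
        apply Real.exp_le_exp.mpr
        rw [mul_comm z, re_ofReal_mul]
        calc u * z.re ≤ |u * z.re| := le_abs_self _
          _ = |z.re| * |u| := by rw [abs_mul]; ring
      have e2 : ‖cexp ((v : ℂ) * (2 * r * u))‖ * Real.exp (-v ^ 2) ≤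
          Real.exp (-(1 / 2) * v ^ 2) * Real.exp (2 * ‖r‖ ^ 2 * u ^ 2) := by
        rw [Complex.norm_exp, ← Real.exp_add, ← Real.exp_add]
        apply Real.exp_le_exp.mpr
        have e3 : ((v : ℂ) * (2 * r * u)).re = 2 * (v * u) * r.re := by
          have : (v : ℂ) * (2 * r * u) = ((2 * (v * u) : ℝ) : ℂ) * r := by push_cast; ring
          rw [this, re_ofReal_mul]
        rw [e3]
        have e4 : r.re ^ 2 ≤ ‖r‖ ^ 2 := by
          rw [← sq_abs r.re]
          exact pow_le_pow_left₀ (abs_nonneg _) (abs_re_le_norm r) 2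
        have e5 : r.re ^ 2 * u ^ 2 ≤ ‖r‖ ^ 2 * u ^ 2 :=
          mul_le_mul_of_nonneg_right e4 (sq_nonneg u)
        nlinarith [sq_nonneg (v - 2 * (r.re * u))]
      calc ‖g u‖ * ‖cexp (z * u)‖ * (‖cexp ((v : ℂ) * (2 * r * u))‖ * Real.exp (-v ^ 2))
          ≤ ‖g u‖ * Real.exp (|z.re| * |u|) *
            (Real.exp (-(1 / 2) * v ^ 2) * Real.exp (2 * ‖r‖ ^ 2 * u ^ 2)) := by
            gcongr
        _ = Real.exp (-(1 / 2) * v ^ 2) *
            (‖g u‖ * Real.exp (|z.re| * |u| + 2 * ‖r‖ ^ 2 * u ^ 2)) := by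
            rw [Real.exp_add]
            ring
        _ ≤ _ := mul_le_mul_of_nonneg_left (hb u) (Real.exp_pos _).le
  rw [integral_integral_swap hint]
  have h2 : ∀ u : ℝ, ∫ v : ℝ, (g u * cexp (z * u)) *
        (cexp ((v : ℂ) * (2 * r * u)) * (Real.exp (-v ^ 2) : ℂ)) =
      (Real.sqrt Real.pi : ℂ) * (g u * cexp (r ^ 2 * (u : ℂ) ^ 2 + z * u)) := by
    intro u
    rw [integral_const_mul]
    have h3 := gauss_inner' (lam := 1 / 4) (by norm_num) (2 * r * u)
    have e1 : (4 * (1 / 4) : ℝ) = 1 := by norm_num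
    rw [e1, mul_one] at h3
    simp only [div_one] at h3
    rw [h3]
    have e2 : (((1 / 4 : ℝ) : ℂ)) * (2 * r * u) ^ 2 = r ^ 2 * (u : ℂ) ^ 2 := by
      push_cast
      ring
    rw [e2, Complex.exp_add]
    ring
  simp_rw [h2]
  rw [integral_const_mul]

lemma flow_eq (lam : ℝ) (s : ℂ) : flow lam s = LL gk lam (s - 1 / 2) := by
  obtain ⟨A, k⟩ := gk_kern
  unfold flow
  have h := avg k ((lam : ℂ) ^ (1 / 2 : ℂ)) (s - 1 / 2)
  rw [cpow_half_sq] at h
  have e : ∫ v : ℝ, xi (s + 2 * (lam : ℂ) ^ (1 / 2 : ℂ) * v) * (Real.exp (-v ^ 2) : ℂ) =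
      ∫ v : ℝ, LL gk 0 (s - 1 / 2 + 2 * (lam : ℂ) ^ (1 / 2 : ℂ) * v) *
        (Real.exp (-v ^ 2) : ℂ) := by
    refine integral_congr_ae (Eventually.of_forall fun v => ?_)
    simp only
    rw [LL_gk_xi]
    congr 2
    ring
  rw [e, h, ← mul_assoc, ← ofReal_mul]
  have hpos : 0 < Real.sqrt Real.pi := Real.sqrt_pos.mpr Real.pi_pos
  rw [one_div, inv_mul_cancel₀ hpos.ne', ofReal_one, one_mul]
  rfl

lemma flow_fun (lam : ℝ) : flow lam = fun s => LL gk lam (s - 1 / 2) :=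
  funext fun s => flow_eq lam s

lemma flow_diff (lam : ℝ) : Differentiable ℂ (flow lam) := by
  obtain ⟨A, k⟩ := gk_kern
  rw [flow_fun]
  have := k.differentiable lam
  fun_prop

/-- **many zeros off the line at negative times** -/
theorem flow_off (h : S_OFF) : ∃ A0 δ c T0 : ℝ, 0 < A0 ∧ 0 < δ ∧ 0 < c ∧ 10 ≤ T0 ∧
    ∀ T lam : ℝ, T0 ≤ T → A0 / Real.log T ^ 2 ≤ lam → lam ≤ δ / Real.log T →
      ∃ S : Finset ℂ, (∀ s ∈ S, flow (-lam) s = 0 ∧ s.re ≠ 1 / 2 ∧ T ≤ s.im ∧ s.im ≤ 2 * T) ∧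
        c * T / (lam * Real.log T) ≤ (S.card : ℝ) := by
  obtain ⟨A0, δ, c, T0, hA0, hδ, hc, hT0, h⟩ := h
  refine ⟨A0, δ, c, T0, by linarith, hδ, hc, hT0, fun T lam hT h1 h2 => ?_⟩
  have hL : 0 < Real.log T := Real.log_pos (by linarith)
  have hlam : 0 < lam := lt_of_lt_of_le (by positivity) h1
  rw [div_le_iff₀ (by positivity)] at h1
  rw [le_div_iff₀ hL] at h2
  obtain ⟨S, hS, hc2⟩ := h T lam hT hlam h1 h2
  refine ⟨S.image fun z => z + 1 / 2, ?_, ?_⟩
  · intro s hs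
    obtain ⟨z, hz, rfl⟩ := Finset.mem_image.mp hs
    obtain ⟨h3, h4, h5, h6⟩ := hS z hz
    refine ⟨?_, ?_, ?_, ?_⟩
    · rw [flow_eq, add_sub_cancel_right]
      exact h3
    · intro h7
      apply h4
      have : (z + 1 / 2 : ℂ).re = z.re + 1 / 2 := by simp
      rw [this] at h7
      linarith
    · simpa using h5
    · simpa using h6
  · rw [Finset.card_image_of_injective _ (add_left_injective _)]
    exact hc2

end Pool.Agent.H466.HN
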