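import Pool.Agent.H466.HP.H14

/-!
# Statements: the heat flow at negative times

`H = LL gk (-μ)` is the backward heat flow of `ξ` at the time `μ = A / L²`, `L = log T`,
`Δ = μ L = A / L`.
-/

set_option autoImplicit false

namespace Pool.Agent.H466.HN

open Complex MeasureTheory Set Filter Topology
open scoped ComplexConjugate
open Pool.Agent.H466.HF Pool.Agent.H466.LD Pool.Agent.H466.HP
open Pool.Agent.H862.VK (Yz)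

/-- profile of the size of the backward heat flow -/
noncomputable def pf (x : ℝ) : ℝ := if x ≤ 1 then x ^ 2 / 4 else x / 2 - 1 / 4

/-- the reference size -/
noncomputable def Gm (T t μ : ℝ) : ℝ :=
  ‖LL gk 0 (((μ * Real.log T : ℝ) : ℂ) + (t : ℂ) * I)‖ * Real.exp (-(μ * Real.log T ^ 2 / 2))

/-- all zeros of the backward heat flow at distance `< R` from `i t` are on the line -/
def RW (t R μ : ℝ) : Prop :=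
  ∀ z : ℂ, LL gk (-μ) z = 0 → ‖z - (t : ℂ) * I‖ < R → z.re = 0

/-- backward heat flow as an average over a vertical line -/
def S_BACK : Prop :=
  ∀ μ : ℝ, 0 < μ → ∀ (z : ℂ) (a : ℝ),
    Real.sqrt (Real.pi * (4 * μ)) * Real.exp (-(a ^ 2 / (4 * μ))) * ‖LL gk (-μ) (z + a)‖ ≤
      ∫ v : ℝ, ‖LL gk 0 (z + v * I)‖ * Real.exp (-v ^ 2 / (4 * μ))

/-- forward heat flow from the time `-μ` -/
def S_FORW : Prop :=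
  ∀ μ : ℝ, 0 < μ → ∀ z : ℂ,
    Real.sqrt (Real.pi * (4 * μ)) * ‖LL gk 0 z‖ ≤
      ∫ s : ℝ, ‖LL gk (-μ) (z + s)‖ * Real.exp (-s ^ 2 / (4 * μ))

/-- upper bound for the backward heat flow near a regular point -/
def S_UH : Prop :=
  ∃ δ2 Kc : ℝ, 0 < δ2 ∧ 0 < Kc ∧ ∀ η : ℝ, 0 < η → ∃ κ0 : ℝ, 0 < κ0 ∧ ∀ κ : ℝ, 0 < κ → κ ≤ κ0 →
    ∀ A1 : ℝ, 1 ≤ A1 → ∃ A0 T0 : ℝ, 1 ≤ A0 ∧ 10 ≤ T0 ∧
    ∀ T t μ : ℝ, T0 ≤ T → T ≤ t → t ≤ 2 * T → Rg T t A1 (1 / κ) κ → 0 < μ →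
      A0 ≤ μ * Real.log T ^ 2 → μ * Real.log T ≤ δ2 →
      ∀ x y : ℝ, 0 ≤ x → |y - t| ≤ 60 * (μ * Real.log T) →
        ‖LL gk (-μ) ((x : ℂ) + (y : ℂ) * I)‖ ≤ Gm T t μ *
          Real.exp (μ * Real.log T ^ 2 * pf (x / (μ * Real.log T)) +
            η * (μ * Real.log T ^ 2 + Real.log T * x) + Kc * x ^ 2)

/-- many points where the backward heat flow has the expected size -/
def S_LH : Prop :=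
  ∃ δ2 : ℝ, 0 < δ2 ∧ ∀ η : ℝ, 0 < η → ∃ κ0 : ℝ, 0 < κ0 ∧ ∀ κ : ℝ, 0 < κ → κ ≤ κ0 →
    ∀ A1 : ℝ, 1 ≤ A1 → ∃ A0 T0 : ℝ, 1 ≤ A0 ∧ 10 ≤ T0 ∧
    ∀ T t μ : ℝ, T0 ≤ T → T ≤ t → t ≤ 2 * T → Rg T t A1 (1 / κ) κ → 0 < μ →
      A0 ≤ μ * Real.log T ^ 2 → μ * Real.log T ≤ δ2 →
      ∀ x y : ℝ, μ * Real.log T ≤ x → x ≤ 30 * (μ * Real.log T) →
        |y - t| ≤ 30 * (μ * Real.log T) →
        ∃ s : ℝ, 3 / 4 * (μ * Real.log T) ≤ s ∧ s ≤ 5 / 4 * (μ * Real.log T) ∧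
          Gm T t μ * Real.exp (Real.log T * (x + s) / 2 - (1 / 4 + η) * (μ * Real.log T ^ 2)) ≤
            ‖LL gk (-μ) (((x + s : ℝ) : ℂ) + (y : ℂ) * I)‖

/-- a function without zeros in a half disc: regularity propagates to the line -/
def S_HARM : Prop :=
  ∀ κ3 : ℝ, 0 < κ3 → ∃ η : ℝ, 0 < η ∧ ∀ (A : ℝ) (h : ℂ → ℂ), 1 ≤ A → Differentiable ℂ h →
    (∀ ζ : ℂ, 0 < ζ.re → ‖ζ‖ < 40 → h ζ ≠ 0) →
    (∀ ζ : ℂ, 0 ≤ ζ.re → ‖ζ‖ < 40 → ‖h ζ‖ ≤ Real.exp (A * (pf ζ.re + η))) →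
    (∀ x y : ℝ, 1 ≤ x → x ≤ 30 → |y| ≤ 30 → ∃ s : ℝ, 3 / 4 ≤ s ∧ s ≤ 5 / 4 ∧
      Real.exp (A * ((x + s) / 2 - 1 / 4 - η)) ≤ ‖h (((x + s : ℝ) : ℂ) + (y : ℂ) * I)‖) →
    ∀ ζ : ℂ, 1 / 32 ≤ ζ.re → ‖ζ‖ ≤ 8 →
      ‖logDeriv h ζ - (A / 2 : ℝ)‖ ≤ κ3 * A ∧
      Real.exp (A * (ζ.re / 2 - 1 / 4 - κ3)) ≤ ‖h ζ‖ ∧
      ‖h ζ‖ ≤ Real.exp (A * (ζ.re / 2 - 1 / 4 + κ3))

/-- regularity of the backward heat flow -/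
structure Hr (T t μ κ3 Γ η Kc : ℝ) : Prop where
  Γp : 0 < Γ
  ne : ∀ z : ℂ, μ * Real.log T / 32 ≤ z.re → ‖z - (t : ℂ) * I‖ ≤ 8 * (μ * Real.log T) →
    LL gk (-μ) z ≠ 0
  ld : ∀ z : ℂ, μ * Real.log T / 32 ≤ z.re → ‖z - (t : ℂ) * I‖ ≤ 8 * (μ * Real.log T) →
    ‖logDeriv (LL gk (-μ)) z - (Real.log T / 2 : ℝ)‖ ≤ κ3 * Real.log T
  lo : ∀ z : ℂ, μ * Real.log T / 32 ≤ z.re → ‖z - (t : ℂ) * I‖ ≤ 8 * (μ * Real.log T) →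
    Γ * Real.exp (Real.log T * z.re / 2 - (1 / 4 + κ3) * (μ * Real.log T ^ 2)) ≤ ‖LL gk (-μ) z‖
  hi : ∀ z : ℂ, μ * Real.log T / 32 ≤ z.re → ‖z - (t : ℂ) * I‖ ≤ 8 * (μ * Real.log T) →
    ‖LL gk (-μ) z‖ ≤ Γ * Real.exp (Real.log T * z.re / 2 - (1 / 4 - κ3) * (μ * Real.log T ^ 2))
  up : ∀ x y : ℝ, 0 ≤ x → |y - t| ≤ 60 * (μ * Real.log T) →
    ‖LL gk (-μ) ((x : ℂ) + (y : ℂ) * I)‖ ≤ Γ *
      Real.exp (μ * Real.log T ^ 2 * pf (x / (μ * Real.log T)) +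
        η * (μ * Real.log T ^ 2 + Real.log T * x) + Kc * x ^ 2)

/-- windows where all zeros of the backward heat flow are on the line are regular -/
def S_PH : Prop :=
  ∃ δ2 Kc : ℝ, 0 < δ2 ∧ 0 < Kc ∧ ∀ κ3 η : ℝ, 0 < κ3 → 0 < η → ∃ κ0 : ℝ, 0 < κ0 ∧
    ∀ κ : ℝ, 0 < κ → κ ≤ κ0 → ∀ A1 : ℝ, 1 ≤ A1 → ∃ A0 T0 : ℝ, 1 ≤ A0 ∧ 10 ≤ T0 ∧
    ∀ T t μ : ℝ, T0 ≤ T → T ≤ t → t ≤ 2 * T → Rg T t A1 (1 / κ) κ → 0 < μ →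
      A0 ≤ μ * Real.log T ^ 2 → μ * Real.log T ≤ δ2 → RW t (40 * (μ * Real.log T)) μ →
      Hr T t μ κ3 (Gm T t μ) η Kc

/-- the integrand of the heat flow along a horizontal line, general function -/
noncomputable def EvG (F : ℂ → ℂ) (t0 lam : ℝ) (w : ℂ) (v : ℝ) : ℂ :=
  F ((v : ℂ) + (t0 : ℂ) * I) * cexp (-((v : ℂ) - w) ^ 2 / (4 * lam))

/-- saddle point data, general function -/
structure SdG (F : ℂ → ℂ) (t0 lam : ℝ) (w : ℂ) (s s0 κ1 : ℝ) : Prop where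
  lam0 : 0 < lam
  sp : 0 < s
  big : 1000 * lam ≤ s ^ 2
  s0s : |s0 - s| ≤ s / 50
  ne : EvG F t0 lam w s0 ≠ 0
  right : ∀ v : ℝ, s / 16 ≤ v →
    ‖EvG F t0 lam w v - EvG F t0 lam w s0 * (Real.exp (-(v - s0) ^ 2 / (4 * lam)) : ℝ)‖ ≤
      κ1 * ((v - s0) ^ 2 / lam) * Real.exp (-(v - s0) ^ 2 / (5 * lam)) * ‖EvG F t0 lam w s0‖
  left : ∀ v : ℝ, 0 ≤ v → v ≤ s / 16 →
    ‖EvG F t0 lam w v‖ ≤ Real.exp (-(19 / 100 * (s ^ 2 / lam))) * ‖EvG F t0 lam w s0‖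

/-- consequences of the saddle point data, general function -/
def S_HALFG : Prop :=
  ∀ (F : ℂ → ℂ) (t0 lam : ℝ) (w : ℂ) (s s0 κ1 : ℝ), Continuous F → SdG F t0 lam w s s0 κ1 →
    κ1 ≤ 1 / 1000 → 0 ≤ κ1 → 0 ≤ w.re →
    ‖AA F t0 lam w - EvG F t0 lam w s0‖ ≤ 1 / 20 * ‖EvG F t0 lam w s0‖ ∧
    ‖AA F t0 lam (-conj w)‖ ≤
      (1 / 20 + 11 / 10 * Real.exp (-(s * w.re / (16 * lam)))) * ‖EvG F t0 lam w s0‖ ∧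
    ∀ h : ℂ, ‖h‖ ^ 2 ≤ lam →
      ‖AA F t0 lam (w + h) * cexp (h ^ 2 / (4 * lam) - ((s0 : ℂ) - w) / (2 * lam) * h) -
        AA F t0 lam w‖ ≤ 20 * (‖h‖ / Real.sqrt lam) * ‖EvG F t0 lam w s0‖

/-- saddle points for the backward heat flow -/
def S_SADN : Prop :=
  ∀ κ1 : ℝ, 0 < κ1 → ∃ κ3 η : ℝ, 0 < κ3 ∧ 0 < η ∧ ∀ Kc δ2 : ℝ, 0 < Kc → 0 < δ2 →
    ∃ A0 T0 : ℝ, 1 ≤ A0 ∧ 10 ≤ T0 ∧
    ∀ T t μ Γ : ℝ, T0 ≤ T → T ≤ t → t ≤ 2 * T → 0 < μ → A0 ≤ μ * Real.log T ^ 2 →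
      μ * Real.log T ≤ δ2 → Hr T t μ κ3 Γ η Kc →
      ∀ w : ℂ, 0 ≤ w.re → w.re ≤ μ * Real.log T / 2 → |w.im - t| ≤ μ * Real.log T / 2 →
        ∃ s0 t0 : ℝ, SdG (LL gk (-μ)) t0 μ (w - (t0 : ℂ) * I) (w.re + μ * Real.log T) s0 κ1 ∧
          ‖((s0 : ℂ) - (w - (t0 : ℂ) * I)) / (2 * μ) - (Real.log T / 2 : ℝ)‖ ≤
            κ1 * Real.log T

/-- all zeros of `ξ` near `t` are simple, on the line, with gaps close to the mean spacing -/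
def GZ (T t ε W' : ℝ) : Prop :=
  ∀ z : ℂ, Yz z = 0 → |z.im - t| ≤ W' / Real.log T → z.re = 0 ∧ mu z = 1 ∧
    ∃ g : ℝ, 0 < g ∧ |g - 2 * Real.pi / Real.log T| ≤ ε / Real.log T ∧ Yz (z + (g : ℂ) * I) = 0 ∧
      ∀ z' : ℂ, z.im < z'.im → z'.im < z.im + g → Yz z' ≠ 0

/-- weight function of the frequencies -/
noncomputable def psi (T W u : ℝ) : ℝ :=
  max 0 (1 - |u - 3 * Real.log T / 128| / (Real.log T / (2 * W)))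

/-- smoothed exponential sum over the zeros -/
noncomputable def SG (T W t : ℝ) : ℂ :=
  ∫ u in (0 : ℝ)..(Real.log T / 16), (psi T W u : ℂ) * cexp (-(I * u * t)) * G u t

/-- the zeros near `t` -/
noncomputable def NS (T W' t u : ℝ) : ℂ :=
  ∑' b : Zr, if |(b : ℂ).im - t| ≤ W' / Real.log T then
    (mu b : ℂ) * cexp (u * ((b : ℂ) - I * t)) * gw t b else 0

/-- the zeros not near `t` -/
noncomputable def TL (T W' t : ℝ) : ℝ :=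
  ∑' b : Zr, if W' / Real.log T < |(b : ℂ).im - t| then
    mu b * Real.exp (Real.log T / 16 * |(b : ℂ).re|) * Real.exp (-((b : ℂ).im - t) ^ 2 / 2) /
      ((b : ℂ).im - t) ^ 2 else 0

/-- equally spaced zeros have small exponential sums -/
def S_NS : Prop :=
  ∀ W' : ℝ, 10 ≤ W' → ∃ ε T0 : ℝ, 0 < ε ∧ 10 ≤ T0 ∧ ∀ T t : ℝ, T0 ≤ T → T ≤ t → t ≤ 2 * T →
    GZ T t ε W' → ∀ u : ℝ, Real.log T / 64 ≤ u → u ≤ Real.log T / 32 → ‖NS T W' t u‖ ≤ 30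

/-- weak type bound for the tail -/
def S_TL : Prop :=
  ∃ C T0 : ℝ, 0 < C ∧ 10 ≤ T0 ∧ ∀ T : ℝ, T0 ≤ T → ∀ W' Λ : ℝ, 1 ≤ W' → W' ≤ T → 0 < Λ →
    volume {t : ℝ | t ∈ Icc T (2 * T) ∧ Λ < TL T W' t} ≤
      ENNReal.ofReal (C * T * Real.log T ^ 2 / (W' * Λ))

/-- the exponential sum from its near part and its tail -/
def S_SGB : Prop :=
  ∃ T0 : ℝ, 10 ≤ T0 ∧ ∀ T t W W' : ℝ, T0 ≤ T → T ≤ t → t ≤ 2 * T → 64 ≤ W → 1 ≤ W' →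
    (∀ u : ℝ, Real.log T / 64 ≤ u → u ≤ Real.log T / 32 → ‖NS T W' t u‖ ≤ 30) →
    ‖SG T W t‖ ≤ 15 * (Real.log T / W) + 10 * (W / Real.log T) * TL T W' t

/-- the exponential sum is not small on a set of positive proportion -/
def S_MS : Prop :=
  ∃ c3 c4 W0 : ℝ, 0 < c3 ∧ 0 < c4 ∧ 64 ≤ W0 ∧ ∀ W : ℝ, W0 ≤ W → ∃ T0 : ℝ, 10 ≤ T0 ∧
    ∀ T : ℝ, T0 ≤ T →
      volume {t : ℝ | t ∈ Icc T (2 * T) ∧ ‖SG T W t‖ < c3 * (Real.log T / Real.sqrt W)} ≤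
        ENNReal.ofReal ((1 - c4) * T)

/-- from windows with a zero off the line to the number of zeros off the line -/
def S_OFFC : Prop :=
  ∀ T R μ m : ℝ, 0 < μ → 0 < R → 2 * R ≤ T → 0 ≤ m →
    ENNReal.ofReal m ≤ volume {t : ℝ | t ∈ Icc (T + R) (2 * T - R) ∧ ¬ RW t R μ} →
    ∃ S : Finset ℂ, (∀ z ∈ S, LL gk (-μ) z = 0 ∧ z.re ≠ 0 ∧ T ≤ z.im ∧ z.im ≤ 2 * T) ∧
      m ≤ 2 * R * (S.card : ℝ)

end Pool.Agent.H466.HN
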