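import Pool.Agent.H466.HN.Asm5
import Pool.Agent.H914.HN.LH

/-!
# Assembly: zeros off the line at negative times, unconditional
-/

set_option autoImplicit false

namespace Pool.Agent.H466.HN

open Pool.Agent.H466.HP

theorem lh : S_LH := Pool.Agent.H914.HN.lh uh forw
theorem ph_all : S_PH := ph lh
theorem soff : S_OFF := s_off lh

end Pool.Agent.H466.HN
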