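import Pool.Agent.H466.HN.N4
import Pool.Agent.H740.HN.UH
import Pool.Agent.H551.HN.PH
import Pool.Agent.H657.HN.TL
import Pool.Agent.H657.HN.SGB
import Pool.Agent.H399.HN.HalfG
import Pool.Agent.H79.HN.NS
import Pool.Agent.H585.HN.Sadn
import Pool.Agent.H225.HN.MS
import Pool.Agent.H218.HN.Harm
import Pool.Agent.H894.HN.OFFC

/-!
# Assembly: zeros off the line at negative times
-/

set_option autoImplicit false

namespace Pool.Agent.H466.HN

open Pool.Agent.H466.HP

theorem uh : S_UH := Pool.Agent.H740.HN.uh back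
theorem harm : S_HARM := Pool.Agent.H218.HN.harm
theorem sadn : S_SADN := Pool.Agent.H585.HN.sadn
theorem halfg : S_HALFG := Pool.Agent.H399.HN.halfg
theorem ns : S_NS := Pool.Agent.H79.HN.ns
theorem tl : S_TL := Pool.Agent.H657.HN.tl
theorem sgb : S_SGB := Pool.Agent.H657.HN.sgb
theorem ms : S_MS := Pool.Agent.H225.HN.ms
theorem offc : S_OFFC := Pool.Agent.H894.HN.offc forw
theorem ph (h : S_LH) : S_PH := Pool.Agent.H551.HN.ph uh h harm
theorem s_off (h : S_LH) : S_OFF := off (ph h) sadn halfg reg ns tl sgb ms offc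

end Pool.Agent.H466.HN
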