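import Pool.Agent.H466.HN.Stm5

/-!
# The backward heat flow: representations, symmetry, growth, splitting
-/

set_option autoImplicit false

open Complex MeasureTheory Filter Topology Set
open scoped ComplexConjugate

namespace Pool.Agent.H466.HN

open Pool.Agent.H466.HF Pool.Agent.H466.LD Pool.Agent.H466.HP
open Pool.Agent.H862.VK (Yz)

/-- the kernel with a Gaussian factor -/
noncomputable def gm (μ u : ℝ) : ℂ := gk u * ((Real.exp (-(μ * u ^ 2)) : ℝ) : ℂ)

lemma gm_kern {A μ : ℝ} (k : Kern gk A 1) (hμ : 0 ≤ μ) : Kern (gm μ) A 1 := by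
  have hc := k.cont
  refine ⟨?_, k.c0, k.A0, fun u => ?_⟩
  · unfold gm
    fun_prop
  · unfold gm
    rw [norm_mul, Complex.norm_real, Real.norm_eq_abs, abs_of_pos (Real.exp_pos _)]
    have h1 : Real.exp (-(μ * u ^ 2)) ≤ 1 := by
      rw [Real.exp_le_one_iff]
      have : 0 ≤ μ * u ^ 2 := by positivity
      linarith
    calc ‖gk u‖ * Real.exp (-(μ * u ^ 2)) ≤ ‖gk u‖ * 1 :=
          mul_le_mul_of_nonneg_left h1 (norm_nonneg _)
      _ = ‖gk u‖ := mul_one _
      _ ≤ _ := k.bd u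

lemma LL_gm (μ lam : ℝ) (z : ℂ) : LL (gm μ) lam z = LL gk (lam - μ) z := by
  unfold LL gm
  refine integral_congr_ae (Eventually.of_forall fun u => ?_)
  simp only
  rw [mul_assoc, ofReal_exp, ← Complex.exp_add]
  congr 2
  push_cast
  ring

lemma LL_gm_zero (μ : ℝ) : LL (gm μ) 0 = LL gk (-μ) := by
  funext z
  rw [LL_gm, zero_sub]

lemma LL_gm_self (μ : ℝ) : LL (gm μ) μ = LL gk 0 := by
  funext z
  rw [LL_gm, sub_self]

/-- the backward heat flow along a shifted vertical line, general kernel -/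
lemma bshiftG {g : ℝ → ℂ} {A c lam : ℝ} (k : Kern g A c) (hlam : 0 < lam) (z : ℂ) (a : ℝ) :
    Real.sqrt (Real.pi * (4 * lam)) * Real.exp (-(a ^ 2 / (4 * lam))) * ‖LL g 0 (z + a)‖ ≤
      ∫ v : ℝ, ‖LL g lam (z + v * I)‖ * Real.exp (-v ^ 2 / (4 * lam)) := by
  have hS := sqrt_pos' hlam
  set b : ℝ := a / (2 * lam) with hb
  have key : ∫ v : ℝ, LL g lam (z + v * I) *
      (cexp (-((v * b : ℝ) : ℂ) * I) * (Real.exp (-v ^ 2 / (4 * lam)) : ℂ)) =
      (Real.sqrt (Real.pi * (4 * lam)) : ℂ) * ((Real.exp (-(a ^ 2 / (4 * lam))) : ℝ) : ℂ) *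
        LL g 0 (z + a) := by
    have h1 : ∀ v : ℝ, LL g lam (z + v * I) *
        (cexp (-((v * b : ℝ) : ℂ) * I) * (Real.exp (-v ^ 2 / (4 * lam)) : ℂ)) =
        ∫ u : ℝ, (g u * cexp ((lam : ℂ) * (u : ℂ) ^ 2 + z * u)) *
          (cexp ((v : ℂ) * (I * (u - b))) * (Real.exp (-v ^ 2 / (4 * lam)) : ℂ)) := by
      intro v
      unfold LL
      rw [← integral_mul_const]
      refine integral_congr_ae (Eventually.of_forall fun u => ?_)
      simp only
      have e : (lam : ℂ) * (u : ℂ) ^ 2 + (z + v * I) * u =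
          ((lam : ℂ) * (u : ℂ) ^ 2 + z * u) + (v : ℂ) * I * u := by ring
      have e2 : (v : ℂ) * (I * (u - b)) = (v : ℂ) * I * u + -((v * b : ℝ) : ℂ) * I := by
        push_cast; ring
      have e3 := Complex.exp_add ((lam : ℂ) * (u : ℂ) ^ 2 + z * u) ((v : ℂ) * I * u)
      have e4 := Complex.exp_add ((v : ℂ) * I * u) (-((v * b : ℝ) : ℂ) * I)
      rw [e, e2, e3, e4]
      ring
    simp_rw [h1]
    have hint : Integrable (Function.uncurry fun (v u : ℝ) =>
        (g u * cexp ((lam : ℂ) * (u : ℂ) ^ 2 + z * u)) *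
          (cexp ((v : ℂ) * (I * (u - b))) * (Real.exp (-v ^ 2 / (4 * lam)) : ℂ)))
        ((volume : Measure ℝ).prod volume) := by
      have i1 : Integrable (fun v : ℝ => Real.exp (-v ^ 2 / (4 * lam))) :=
        ga_integrable (k := 4 * lam) (by positivity)
      have i2 := (k.integrable lam z).norm
      refine (i1.mul_prod i2).mono' ?_ (Eventually.of_forall fun p => ?_)
      · have := k.cont
        refine Continuous.aestronglyMeasurable ?_
        unfold Function.uncurry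
        fun_prop
      · obtain ⟨v, u⟩ := p
        simp only [Function.uncurry]
        rw [norm_mul, norm_mul (cexp _) ((Real.exp _ : ℝ) : ℂ)]
        have e1 : ‖cexp ((v : ℂ) * (I * (u - b)))‖ = 1 := by
          have : (v : ℂ) * (I * (u - b)) = ((v * (u - b) : ℝ) : ℂ) * I := by push_cast; ring
          rw [this, Complex.norm_exp_ofReal_mul_I]
        rw [e1, one_mul, Complex.norm_real, Real.norm_eq_abs, abs_of_pos (Real.exp_pos _), mul_comm]
    rw [integral_integral_swap hint]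
    have h2 : ∀ u : ℝ, ∫ v : ℝ, (g u * cexp ((lam : ℂ) * (u : ℂ) ^ 2 + z * u)) *
          (cexp ((v : ℂ) * (I * (u - b))) * (Real.exp (-v ^ 2 / (4 * lam)) : ℂ)) =
        ((Real.sqrt (Real.pi * (4 * lam)) : ℂ) * ((Real.exp (-(a ^ 2 / (4 * lam))) : ℝ) : ℂ)) *
          (g u * cexp ((z + a) * u)) := by
      intro u
      rw [integral_const_mul, gauss_inner' hlam]
      have e : cexp ((lam : ℂ) * (u : ℂ) ^ 2 + z * u) * cexp (lam * (I * (u - b)) ^ 2) =
          ((Real.exp (-(a ^ 2 / (4 * lam))) : ℝ) : ℂ) * cexp ((z + a) * u) := by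
        rw [ofReal_exp, ← Complex.exp_add, ← Complex.exp_add]
        congr 1
        have hI : I ^ 2 = -1 := I_sq
        have hb2 : (2 : ℂ) * lam * b = a := by
          rw [hb]
          push_cast
          have : (lam : ℂ) ≠ 0 := ofReal_ne_zero.mpr hlam.ne'
          field_simp
        have hb3r : a ^ 2 / (4 * lam) = lam * b ^ 2 := by
          rw [hb]
          field_simp
          ring
        have hb3 : ((-(a ^ 2 / (4 * lam)) : ℝ) : ℂ) = -((lam : ℂ) * b ^ 2) := by
          rw [hb3r]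
          push_cast
          ring
        rw [hb3, mul_pow, hI]
        linear_combination (u : ℂ) * hb2
      calc g u * cexp ((lam : ℂ) * (u : ℂ) ^ 2 + z * u) *
            ((Real.sqrt (Real.pi * (4 * lam)) : ℂ) * cexp (lam * (I * (u - b)) ^ 2))
          = (Real.sqrt (Real.pi * (4 * lam)) : ℂ) * (g u *
            (cexp ((lam : ℂ) * (u : ℂ) ^ 2 + z * u) * cexp (lam * (I * (u - b)) ^ 2))) := by ring
        _ = _ := by rw [e]; ring
    simp_rw [h2]
    rw [integral_const_mul, LL_zero]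
  have h3 := norm_integral_le_integral_norm (μ := volume) (fun v : ℝ => LL g lam (z + v * I) *
      (cexp (-((v * b : ℝ) : ℂ) * I) * (Real.exp (-v ^ 2 / (4 * lam)) : ℂ)))
  rw [key, norm_mul, norm_mul, Complex.norm_real, Complex.norm_real, Real.norm_eq_abs,
    Real.norm_eq_abs, abs_of_pos hS, abs_of_pos (Real.exp_pos _)] at h3
  refine h3.trans (le_of_eq ?_)
  refine integral_congr_ae (Eventually.of_forall fun v => ?_)
  simp only [norm_mul]
  have e1 : ‖cexp (-((v * b : ℝ) : ℂ) * I)‖ = 1 := by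
    have : -((v * b : ℝ) : ℂ) * I = ((-(v * b) : ℝ) : ℂ) * I := by push_cast; ring
    rw [this, Complex.norm_exp_ofReal_mul_I]
  rw [e1, one_mul, Complex.norm_real, Real.norm_eq_abs, abs_of_pos (Real.exp_pos _)]

theorem back : S_BACK := by
  intro μ hμ z a
  obtain ⟨A, -, -, -, -, -, -, -, k, -⟩ := far_data
  have h := bshiftG (gm_kern k hμ.le) hμ z a
  rw [LL_gm_zero, LL_gm_self] at h
  exact h

theorem forw : S_FORW := by
  intro μ hμ z
  obtain ⟨A, -, -, -, -, -, -, -, k, -⟩ := far_data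
  have h := (gm_kern k hμ.le).heat_eq hμ z
  rw [LL_gm_zero, LL_gm_self] at h
  have hS := sqrt_pos' hμ
  have h2 := norm_integral_le_integral_norm (μ := volume)
    (fun v : ℝ => LL gk (-μ) (z + v) * (Real.exp (-v ^ 2 / (4 * μ)) : ℂ))
  unfold heat at h
  rw [h, norm_mul, Complex.norm_real, Real.norm_eq_abs, abs_of_pos hS] at h2
  refine h2.trans (le_of_eq ?_)
  refine integral_congr_ae (Eventually.of_forall fun v => ?_)
  simp only [norm_mul]
  rw [Complex.norm_real, Real.norm_eq_abs, abs_of_pos (Real.exp_pos _)]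

/-- growth on all horizontal half lines -/
lemma gr_back {μ : ℝ} (hμ : 0 < μ) (t0 : ℝ) : ∃ B K : ℝ, Gr (LL gk (-μ)) t0 0 B K μ := by
  obtain ⟨A, -, -, -, -, -, -, -, k, -⟩ := far_data
  obtain ⟨C, hC, hb⟩ := k.term 0 (4 * μ)
  refine ⟨∫ u : ℝ, C * Real.exp (-1 * u ^ 2), 1 / (16 * μ), (k.differentiable _).continuous,
    by positivity, integral_nonneg fun u => by positivity, le_rfl, hμ, ?_, fun v hv => ?_⟩
  · refine le_of_eq ?_
    field_simp
  · rw [zero_mul, zero_add]
    have h1 : ‖LL gk (-μ) ((v : ℂ) + (t0 : ℂ) * I)‖ ≤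
        ∫ u : ℝ, Real.exp (1 / (16 * μ) * v ^ 2) * (C * Real.exp (-1 * u ^ 2)) := by
      unfold LL
      refine norm_integral_le_of_norm_le ((gauss_int.const_mul C).const_mul _)
        (Eventually.of_forall fun u => ?_)
      rw [norm_mul]
      have h2 := norm_exp_le (-μ) ((v : ℂ) + (t0 : ℂ) * I) u
      have e1 : ((v : ℂ) + (t0 : ℂ) * I).re = v := by simp
      rw [e1, abs_of_nonneg hv] at h2
      have h3 : Real.exp (v * |u| + -μ * u ^ 2) ≤
          Real.exp (1 / (16 * μ) * v ^ 2) * Real.exp (0 * |u| + 4 * μ * u ^ 2) := by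
        rw [← Real.exp_add]
        apply Real.exp_le_exp.mpr
        have h4 : v * |u| ≤ 1 / (16 * μ) * v ^ 2 + 4 * μ * u ^ 2 := by
          have h5 : 0 ≤ (v / (4 * Real.sqrt μ) - 2 * Real.sqrt μ * |u|) ^ 2 := sq_nonneg _
          have h6 : (v / (4 * Real.sqrt μ) - 2 * Real.sqrt μ * |u|) ^ 2 =
              1 / (16 * μ) * v ^ 2 + 4 * μ * u ^ 2 - v * |u| := by
            have h7 := Real.sq_sqrt hμ.le
            have h8 : Real.sqrt μ ≠ 0 := (Real.sqrt_pos.mpr hμ).ne'
            have h9 : (v / (4 * Real.sqrt μ) - 2 * Real.sqrt μ * |u|) ^ 2 =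
                v ^ 2 / (16 * Real.sqrt μ ^ 2) + 4 * Real.sqrt μ ^ 2 * |u| ^ 2 - v * |u| := by
              field_simp
              ring
            rw [h9, h7, sq_abs]
            ring
          linarith
        have h5 : 0 ≤ μ * u ^ 2 := by positivity
        linarith
      calc ‖gk u‖ * ‖cexp (((-μ : ℝ) : ℂ) * (u : ℂ) ^ 2 + ((v : ℂ) + (t0 : ℂ) * I) * u)‖
          ≤ ‖gk u‖ * (Real.exp (1 / (16 * μ) * v ^ 2) * Real.exp (0 * |u| + 4 * μ * u ^ 2)) :=
            mul_le_mul_of_nonneg_left (h2.trans h3) (norm_nonneg _)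
        _ = Real.exp (1 / (16 * μ) * v ^ 2) * (‖gk u‖ * Real.exp (0 * |u| + 4 * μ * u ^ 2)) := by
            ring
        _ ≤ _ := mul_le_mul_of_nonneg_left (hb u) (Real.exp_pos _).le
    rw [integral_const_mul] at h1
    exact h1.trans (le_of_eq (mul_comm _ _))

/-- the splitting at the height `t0` -/
lemma splitN {t0 μ ℒ B K : ℝ} (G : Gr (LL gk (-μ)) t0 ℒ B K μ) (w : ℂ) :
    LL gk 0 w = AA (LL gk (-μ)) t0 μ (w - (t0 : ℂ) * I) +
      conj (AA (LL gk (-μ)) t0 μ (-conj (w - (t0 : ℂ) * I))) := by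
  obtain ⟨A, -, -, -, -, -, -, -, k, -⟩ := far_data
  have hμ := G.lam0
  have k' := gm_kern k hμ.le
  have G' : Gr (LL (gm μ) 0) t0 ℒ B K μ := by
    rw [LL_gm_zero]
    exact G
  have h := split k' G' (by
    rw [LL_gm_zero]
    exact Flam_fe (-μ)) (w - (t0 : ℂ) * I)
  rw [add_sub_cancel, LL_gm_zero, LL_gm_self] at h
  exact h

end Pool.Agent.H466.HN
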