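import Pool.Agent.H466.HN.N1

/-!
# The local model of `ξ` from the regularity of the backward heat flow
-/

set_option autoImplicit false

open Complex MeasureTheory Filter Topology Set
open scoped ComplexConjugate

namespace Pool.Agent.H466.HN

open Pool.Agent.H466.HF Pool.Agent.H466.LD Pool.Agent.H466.HP
open Pool.Agent.H862.VK (Yz)

/-- local model at a point of the line, and no zeros to the right of the line -/
theorem mdN (h1 : S_SADN) (h2 : S_HALFG) {κ1 : ℝ} (hκ1 : 0 < κ1) :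
    ∃ κ3 η : ℝ, 0 < κ3 ∧ 0 < η ∧ ∀ Kc δ2 : ℝ, 0 < Kc → 0 < δ2 →
    ∃ A0 T0 : ℝ, 1 ≤ A0 ∧ 10 ≤ T0 ∧
    ∀ T t μ Γ : ℝ, T0 ≤ T → T ≤ t → t ≤ 2 * T → 0 < μ → A0 ≤ μ * Real.log T ^ 2 →
      μ * Real.log T ≤ δ2 → Hr T t μ κ3 Γ η Kc →
      (∀ y : ℝ, |y - t| ≤ μ * Real.log T / 2 →
        ∃ (p a : ℂ) (r : ℂ → ℂ), Md (LL gk 0) μ (Real.log T) κ1 y p a r) ∧
      ∀ w : ℂ, 23 ≤ w.re * Real.log T → w.re ≤ μ * Real.log T / 2 →
        |w.im - t| ≤ μ * Real.log T / 2 → LL gk 0 w ≠ 0 := by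
  obtain ⟨κ3, η, hκ3, hη, hsad⟩ := h1 (min κ1 (1 / 1000)) (lt_min hκ1 (by norm_num))
  refine ⟨κ3, η, hκ3, hη, fun Kc δ2 hKc hδ2 => ?_⟩
  obtain ⟨A0, T0, hA0, hT0, hs⟩ := hsad Kc δ2 hKc hδ2
  refine ⟨A0, T0, hA0, hT0, ?_⟩
  intro T t μ Γ hT ht1 ht2 hμ hA hδ H
  have hT10 : 10 ≤ T := hT0.trans hT
  obtain ⟨L, hL⟩ : ∃ L : ℝ, L = Real.log T := ⟨_, rfl⟩
  have hLp : 0 < L := by rw [hL]; exact Real.log_pos (by linarith)
  have hs' := hs T t μ Γ hT ht1 ht2 hμ hA hδ H
  rw [← hL] at hs' ⊢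
  obtain ⟨A, -, -, -, -, -, -, -, k, -⟩ := far_data
  have hcont : Continuous (LL gk (-μ)) := (k.differentiable _).continuous
  have hΔ : 0 < μ * L := by positivity
  constructor
  · intro y hyt
    have hwre : ((y : ℂ) * I).re = 0 := by simp
    have hwim : ((y : ℂ) * I).im = y := by simp
    obtain ⟨s0, t0, D, hp⟩ := hs' ((y : ℂ) * I) (by rw [hwre]) (by rw [hwre]; positivity)
      (by rw [hwim]; exact hyt)
    obtain ⟨B, K, G⟩ := gr_back hμ t0
    set w' : ℂ := (y : ℂ) * I - (t0 : ℂ) * I with hw'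
    have hwre' : w'.re = 0 := by rw [hw']; simp
    have hwc : -conj w' = w' := by
      rw [hw', map_sub, map_mul, map_mul, conj_ofReal, conj_ofReal, conj_I]
      ring
    obtain ⟨e1, -, e3⟩ := h2 (LL gk (-μ)) t0 μ w' (((y : ℂ) * I).re + μ * L) s0
      (min κ1 (1 / 1000)) hcont D (min_le_right _ _) (le_min hκ1.le (by norm_num)) (by rw [hwre'])
    set Ω := ‖EvG (LL gk (-μ)) t0 μ w' s0‖ with hΩ
    have hΩp : 0 < Ω := norm_pos_iff.mpr D.ne
    set a := AA (LL gk (-μ)) t0 μ w' with ha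
    have hΩa : 19 / 20 * Ω ≤ ‖a‖ := by
      have := norm_sub_norm_le (EvG (LL gk (-μ)) t0 μ w' s0) a
      rw [norm_sub_rev] at this
      linarith
    have hap : 0 < ‖a‖ := by linarith
    set p : ℂ := ((s0 : ℂ) - w') / (2 * μ) with hpdef
    set r : ℂ → ℂ := fun h => AA (LL gk (-μ)) t0 μ (w' + h) *
      cexp (h ^ 2 / (4 * μ) - p * h) - a with hr
    refine ⟨p, a, r, hμ, hLp, norm_pos_iff.mp hap, ?_, ?_, fun h hh => ?_, fun h => ?_⟩
    · exact hp.trans (mul_le_mul_of_nonneg_right (min_le_left _ _) hLp.le)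
    · simp only [hr]
      simp [ha]
    · simp only [hr]
      refine (e3 h hh).trans ?_
      have h4 : 0 ≤ ‖h‖ / Real.sqrt μ := by positivity
      nlinarith
    · have hadd : ∀ h : ℂ, a + r h = AA (LL gk (-μ)) t0 μ (w' + h) *
          cexp (h ^ 2 / (4 * μ) - p * h) := fun h => by
        simp only [hr]
        ring
      have hsp := splitN G ((y : ℂ) * I + h)
      have ew : (y : ℂ) * I + h - (t0 : ℂ) * I = w' + h := by rw [hw']; ring
      have ew2 : -conj (w' + h) = w' + -conj h := by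
        rw [map_add, neg_add, hwc]
      rw [ew, ew2] at hsp
      rw [hsp, hadd, hadd, mul_add]
      congr 1
      · have e4 : h ^ 2 / (4 * (μ : ℂ)) = p * h + (h ^ 2 / (4 * μ) - p * h) := by ring
        nth_rewrite 1 [e4]
        rw [Complex.exp_add]
        ring
      · rw [map_mul, ← Complex.exp_conj]
        have e5 : conj ((-conj h) ^ 2 / (4 * (μ : ℂ)) - p * -conj h) =
            h ^ 2 / (4 * (μ : ℂ)) + conj p * h := by
          simp only [map_sub, map_div₀, map_pow, map_neg, map_mul, conj_conj, conj_ofReal,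
            map_ofNat]
          ring
        rw [e5]
        have e6 : h ^ 2 / (4 * (μ : ℂ)) =
            -(conj p * h) + (h ^ 2 / (4 * (μ : ℂ)) + conj p * h) := by
          ring
        nth_rewrite 1 [e6]
        rw [Complex.exp_add]
        ring
  · intro w hw1 hw2 hw3
    have hwp : 0 < w.re := by
      by_contra hcon
      push Not at hcon
      have : w.re * L ≤ 0 := mul_nonpos_of_nonpos_of_nonneg hcon hLp.le
      linarith
    obtain ⟨s0, t0, D, hp⟩ := hs' w hwp.le hw2 hw3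
    obtain ⟨B, K, G⟩ := gr_back hμ t0
    set w' : ℂ := w - (t0 : ℂ) * I with hw'
    have hwre : w'.re = w.re := by rw [hw']; simp
    obtain ⟨e1, e2, -⟩ := h2 (LL gk (-μ)) t0 μ w' (w.re + μ * L) s0 (min κ1 (1 / 1000)) hcont D
      (min_le_right _ _) (le_min hκ1.le (by norm_num)) (by rw [hwre]; exact hwp.le)
    set Ω := ‖EvG (LL gk (-μ)) t0 μ w' s0‖ with hΩ
    have hΩp : 0 < Ω := norm_pos_iff.mpr D.ne
    have hsp := splitN G w
    rw [← hw'] at hsp
    have hexp : Real.exp (-((w.re + μ * L) * w'.re / (16 * μ))) ≤ 3 / 10 := by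
      refine le_trans (Real.exp_le_exp.mpr ?_) exp_2316
      rw [hwre, neg_le_neg_iff, div_le_div_iff₀ (by norm_num) (by positivity)]
      have h3 : μ * 23 ≤ μ * (w.re * L) := mul_le_mul_of_nonneg_left hw1 hμ.le
      nlinarith [mul_pos hwp hwp]
    have hlow : Ω / 2 ≤ ‖LL gk 0 w‖ := by
      have h3 : ‖AA (LL gk (-μ)) t0 μ (-conj w')‖ ≤ (1 / 20 + 11 / 10 * (3 / 10)) * Ω := by
        refine e2.trans (mul_le_mul_of_nonneg_right ?_ hΩp.le)
        linarith
      have h4 : Ω - 1 / 20 * Ω ≤ ‖AA (LL gk (-μ)) t0 μ w'‖ := by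
        have := norm_sub_norm_le (EvG (LL gk (-μ)) t0 μ w' s0) (AA (LL gk (-μ)) t0 μ w')
        rw [norm_sub_rev] at this
        linarith
      have h5 : ‖AA (LL gk (-μ)) t0 μ w'‖ - ‖AA (LL gk (-μ)) t0 μ (-conj w')‖ ≤
          ‖LL gk 0 w‖ := by
        rw [hsp]
        have := norm_sub_le (AA (LL gk (-μ)) t0 μ w' + conj (AA (LL gk (-μ)) t0 μ (-conj w')))
          (conj (AA (LL gk (-μ)) t0 μ (-conj w')))
        rw [add_sub_cancel_right, Complex.norm_conj] at this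
        linarith
      linarith
    rw [← norm_pos_iff]
    linarith

lemma Yz_F (z : ℂ) : Yz z = 2 * LL gk 0 z := by
  rw [F_Yz]
  ring

lemma mu_one {z : ℂ} (hz : Yz z = 0) (hd : deriv (LL gk 0) z ≠ 0) : mu z = 1 := by
  obtain ⟨A, -, -, -, -, -, -, -, k, -⟩ := far_data
  have hdiff : Differentiable ℂ (LL gk 0) := k.differentiable 0
  have hY : Yz = fun z => 2 * LL gk 0 z := funext Yz_F
  have hYd : Differentiable ℂ Yz := by
    rw [hY]
    exact hdiff.const_mul 2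
  have hYa : AnalyticAt ℂ Yz z := hYd.analyticAt z
  have hder : deriv Yz z ≠ 0 := by
    rw [hY, deriv_const_mul 2 (hdiff z)]
    exact mul_ne_zero two_ne_zero hd
  have h1 := hYa.analyticOrderAt_sub_eq_one_of_deriv_ne_zero hder
  have e : (fun x => Yz x - Yz z) = Yz := by
    funext x
    rw [hz, sub_zero]
  rw [e] at h1
  unfold mu analyticOrderNatAt
  rw [h1]
  simp

theorem gz (h1 : S_SADN) (h2 : S_HALFG) {ε : ℝ} (hε : 0 < ε) :
    ∃ κ3 η : ℝ, 0 < κ3 ∧ 0 < η ∧ ∀ Kc δ2 W' A1 : ℝ, 0 < Kc → 0 < δ2 → 0 < W' → 0 < A1 →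
    ∃ A0 T0 : ℝ, 1 ≤ A0 ∧ 10 ≤ T0 ∧
    ∀ T t μ Γ M : ℝ, T0 ≤ T → T ≤ t → t ≤ 2 * T → 0 < μ → A0 ≤ μ * Real.log T ^ 2 →
      μ * Real.log T ≤ δ2 → 1 ≤ M → CF t (A1 / Real.log T) M → Hr T t μ κ3 Γ η Kc →
      GZ T t ε W' := by
  obtain ⟨e, he⟩ : ∃ e : ℝ, e = min (ε / 4) 1 := ⟨_, rfl⟩
  have hep : 0 < e := by rw [he]; exact lt_min (by positivity) one_pos
  have he1 : e ≤ 1 := by rw [he]; exact min_le_right _ _
  have he4 : 4 * e ≤ ε := by
    have := min_le_left (ε / 4) 1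
    rw [← he] at this
    linarith
  obtain ⟨κ3, η, hκ3, hη, hmd⟩ := mdN h1 h2 (show 0 < e / 25 by positivity)
  refine ⟨κ3, η, hκ3, hη, fun Kc δ2 W' A1 hKc hδ2 hW hA1 => ?_⟩
  obtain ⟨A0, T0, hA0, hT0, hmd'⟩ := hmd Kc δ2 hKc hδ2
  obtain ⟨A, -, -, -, -, -, -, -, k, -⟩ := far_data
  have hd : Differentiable ℂ (LL gk 0) := k.differentiable 0
  refine ⟨max (max A0 (10 ^ 7)) (max ((1000 / e) ^ 2) (4 * W' + A1)), T0,
    hA0.trans ((le_max_left _ _).trans (le_max_left _ _)), hT0, ?_⟩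
  intro T t μ Γ M hT ht1 ht2 hμ hA hδ hM hcf H
  have hA0' : A0 ≤ μ * Real.log T ^ 2 := ((le_max_left _ _).trans (le_max_left _ _)).trans hA
  have hA1' : 10 ^ 7 ≤ μ * Real.log T ^ 2 := ((le_max_right _ _).trans (le_max_left _ _)).trans hA
  have hA2' : (1000 / e) ^ 2 ≤ μ * Real.log T ^ 2 :=
    ((le_max_left _ _).trans (le_max_right _ _)).trans hA
  have hA3' : 4 * W' + A1 ≤ μ * Real.log T ^ 2 :=
    ((le_max_right _ _).trans (le_max_right _ _)).trans hA
  obtain ⟨hm, hlow⟩ := hmd' T t μ Γ hT ht1 ht2 hμ hA0' hδ H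
  have hT10 : 10 ≤ T := hT0.trans hT
  unfold GZ
  obtain ⟨L, hL⟩ : ∃ L : ℝ, L = Real.log T := ⟨_, rfl⟩
  rw [← hL] at hm hlow hA0' hA1' hA2' hA3' hcf ⊢
  have hLp : 0 < L := by rw [hL]; exact Real.log_pos (by linarith)
  have hΔ : 0 < μ * L := by positivity
  -- real parts of the zeros
  have hre : ∀ z : ℂ, Yz z = 0 → |z.im - t| ≤ μ * L / 2 → |z.re| ≤ μ * L / 2 := by
    intro z hz hzt
    rcases hcf z hz with h | h
    · refine h.trans ?_
      rw [div_div, div_le_div_iff₀ (by positivity) (by norm_num)]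
      nlinarith
    · refine h.trans ?_
      rw [div_le_div_iff₀ (by positivity) (by norm_num)]
      nlinarith
  have hoff1 : ∀ z : ℂ, Yz z = 0 → |z.im - t| ≤ μ * L / 2 → 0 < z.re → False := by
    intro z hz hzt hzre
    have hF : LL gk 0 z = 0 := by rw [F_Yz, hz, zero_div]
    have hs := (abs_le.mp (hre z hz hzt)).2
    rcases le_or_gt 23 (z.re * L) with h | h
    · exact hlow z h hs hzt hF
    · obtain ⟨p, a, r, M'⟩ := hm z.im hzt
      refine M'.off (by linarith) hA1' hzre h.le ?_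
      have : (z.im : ℂ) * I + (z.re : ℂ) = z := by
        rw [add_comm]
        exact re_add_im z
      rw [this]
      exact hF
  have hoff : ∀ z : ℂ, Yz z = 0 → |z.im - t| ≤ μ * L / 2 → z.re = 0 := by
    intro z hz hzt
    rcases lt_trichotomy z.re 0 with h | h | h
    · exfalso
      refine hoff1 (-conj z) ?_ ?_ ?_
      · rw [Yz_F, LL_gk_fe, F_Yz, hz]
        simp
      · simpa using hzt
      · simpa using h
    · exact h
    · exact absurd h (fun h => hoff1 z hz hzt h)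
  have hWΔ : W' / L ≤ μ * L / 4 := by
    rw [div_le_div_iff₀ hLp (by norm_num)]
    nlinarith
  intro z hz hzt
  have hzt' : |z.im - t| ≤ μ * L / 2 := by linarith
  have hz0 := hoff z hz hzt'
  have hzI : z = (z.im : ℂ) * I := by
    apply Complex.ext
    · simp [hz0]
    · simp
  have hFz : LL gk 0 z = 0 := by rw [F_Yz, hz, zero_div]
  obtain ⟨p, a, r, M'⟩ := hm z.im hzt'
  obtain ⟨hder, g, hg, hgL, hg0, hgn⟩ := M'.gap hep he1 le_rfl (by positivity) hA2' hd (by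
    rw [← hzI]
    exact hFz)
  refine ⟨hz0, mu_one hz (by rw [hzI]; exact hder), g, hg, ?_, ?_, ?_⟩
  · refine hgL.trans ?_
    exact div_le_div_of_nonneg_right he4 hLp.le
  · have e1 : z + (g : ℂ) * I = ((z.im + g : ℝ) : ℂ) * I := by
      nth_rewrite 1 [hzI]
      push_cast
      ring
    rw [e1, Yz_F, hg0, mul_zero]
  · intro z' h3 h4 h5
    have hg8 : g ≤ 12 / L := by
      have h6 := (abs_le.mp hgL).2
      have h7 : 2 * Real.pi / L + 4 * e / L ≤ 12 / L := by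
        rw [← add_div]
        apply div_le_div_of_nonneg_right _ hLp.le
        linarith [Real.pi_lt_d2]
      linarith
    have hg9 : g ≤ μ * L / 4 := by
      refine hg8.trans ?_
      rw [div_le_div_iff₀ hLp (by norm_num)]
      nlinarith
    have h8 : |z'.im - t| ≤ μ * L / 2 := by
      obtain ⟨h9, h10⟩ := abs_le.mp hzt
      rw [abs_le]
      constructor <;> linarith
    have h9 := hoff z' h5 h8
    have e2 : z' = ((z.im + (z'.im - z.im) : ℝ) : ℂ) * I := by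
      apply Complex.ext
      · simp [h9]
      · simp
    refine hgn (z'.im - z.im) (by linarith) (by linarith) ?_
    rw [← e2, F_Yz, h5, zero_div]

end Pool.Agent.H466.HN
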