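import Pool.Agent.H466.HN.N2
import Pool.Agent.H466.HP.Asm

/-!
# Assembly: many zeros of the backward heat flow off the line
-/

set_option autoImplicit false

open Complex MeasureTheory Filter Topology Set
open scoped ComplexConjugate

namespace Pool.Agent.H466.HN

open Pool.Agent.H466.HF Pool.Agent.H466.LD Pool.Agent.H466.HP
open Pool.Agent.H862.VK (Yz)

/-- the statement: many zeros off the line -/
def S_OFF : Prop :=
  ∃ A0 δ2 c T0 : ℝ, 1 ≤ A0 ∧ 0 < δ2 ∧ 0 < c ∧ 10 ≤ T0 ∧ ∀ T μ : ℝ, T0 ≤ T → 0 < μ →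
    A0 ≤ μ * Real.log T ^ 2 → μ * Real.log T ≤ δ2 →
    ∃ S : Finset ℂ, (∀ z ∈ S, LL gk (-μ) z = 0 ∧ z.re ≠ 0 ∧ T ≤ z.im ∧ z.im ≤ 2 * T) ∧
      c * T / (μ * Real.log T) ≤ (S.card : ℝ)

/-- the exponential sum is small at regular points with all zeros on the line nearby -/
lemma sg_small {L W c3 TLv x : ℝ} (hL : 0 < L) (hW : 64 ≤ W) (hc3 : 0 < c3)
    (hWc : (60 / c3) ^ 2 ≤ W) (hTL : TLv ≤ c3 * L ^ 2 / (40 * (W * Real.sqrt W)))
    (hx : x ≤ 15 * (L / W) + 10 * (W / L) * TLv) : x < c3 * (L / Real.sqrt W) := by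
  have hWp : 0 < W := by linarith
  obtain ⟨q, hq⟩ : ∃ q : ℝ, q = Real.sqrt W := ⟨_, rfl⟩
  have hqp : 0 < q := by rw [hq]; exact Real.sqrt_pos.mpr hWp
  have hqq : W = q ^ 2 := by rw [hq, Real.sq_sqrt hWp.le]
  rw [← hq] at hTL ⊢
  have h1 : 60 / c3 ≤ q := by
    rw [hqq] at hWc
    exact le_of_sq_le_sq hWc hqp.le
  rw [div_le_iff₀ hc3] at h1
  have h2 : 15 * (L / W) ≤ c3 / 4 * (L / q) := by
    rw [hqq]
    have e : c3 / 4 * (L / q) = c3 * q / 4 * (L / q ^ 2) := by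
      field_simp
    rw [e]
    apply mul_le_mul_of_nonneg_right _ (by positivity)
    linarith
  have h3 : 10 * (W / L) * TLv ≤ c3 / 4 * (L / q) := by
    have h4 : 10 * (W / L) * TLv ≤ 10 * (W / L) * (c3 * L ^ 2 / (40 * (W * q))) :=
      mul_le_mul_of_nonneg_left hTL (by positivity)
    refine h4.trans (le_of_eq ?_)
    field_simp
    norm_num
  have h5 : 0 < L / q := by positivity
  have h6 : 0 < c3 * (L / q) := by positivity
  linarith

theorem off (hph : S_PH) (hsad : S_SADN) (hhalf : S_HALFG) (hreg : S_REG) (hns : S_NS)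
    (htl : S_TL) (hsgb : S_SGB) (hms : S_MS) (hoffc : S_OFFC) : S_OFF := by
  obtain ⟨c3, c4', W0, hc3, hc4', hW0, hms⟩ := hms
  obtain ⟨c4, hc4e⟩ : ∃ c4 : ℝ, c4 = min c4' 1 := ⟨_, rfl⟩
  have hc4 : 0 < c4 := by rw [hc4e]; exact lt_min hc4' one_pos
  have hc41 : c4 ≤ 1 := by rw [hc4e]; exact min_le_right _ _
  have hc44 : c4 ≤ c4' := by rw [hc4e]; exact min_le_left _ _
  obtain ⟨W, hWe⟩ : ∃ W : ℝ, W = max W0 ((60 / c3) ^ 2) := ⟨_, rfl⟩
  have hW1 : W0 ≤ W := by rw [hWe]; exact le_max_left _ _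
  have hW2 : (60 / c3) ^ 2 ≤ W := by rw [hWe]; exact le_max_right _ _
  have hW64 : 64 ≤ W := hW0.trans hW1
  have hWp : 0 < W := by linarith
  have hqp : 0 < Real.sqrt W := Real.sqrt_pos.mpr hWp
  obtain ⟨T1, hT1, hms⟩ := hms W hW1
  obtain ⟨C, T2, hC, hT2, htl⟩ := htl
  obtain ⟨W', hWe'⟩ : ∃ W' : ℝ, W' = max 10 (160 * C * (W * Real.sqrt W) / (c3 * c4)) := ⟨_, rfl⟩
  have hW'1 : 10 ≤ W' := by rw [hWe']; exact le_max_left _ _
  have hW'2 : 160 * C * (W * Real.sqrt W) / (c3 * c4) ≤ W' := by rw [hWe']; exact le_max_right _ _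
  obtain ⟨ε, T3, hε, hT3, hns⟩ := hns W' hW'1
  obtain ⟨T4, hT4, hsgb⟩ := hsgb
  obtain ⟨κ3, η, hκ3, hη, hgz⟩ := gz hsad hhalf hε
  obtain ⟨δ2, Kc, hδ2, hKc, hph⟩ := hph
  obtain ⟨κ0, hκ0, hph⟩ := hph κ3 η hκ3 hη
  obtain ⟨κ, hκe⟩ : ∃ κ : ℝ, κ = min κ0 1 := ⟨_, rfl⟩
  have hκ : 0 < κ := by rw [hκe]; exact lt_min hκ0 one_pos
  have hκ1 : κ ≤ 1 := by rw [hκe]; exact min_le_right _ _
  have hκ2 : κ ≤ κ0 := by rw [hκe]; exact min_le_left _ _
  have hM : 1 ≤ 1 / κ := by rw [le_div_iff₀ hκ]; linarith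
  obtain ⟨A1, T5, hA1, hT5, hreg⟩ := hreg (1 / κ) κ (c4 / 4) hM hκ (by positivity)
  obtain ⟨A0a, T6, hA0a, hT6, hph⟩ := hph κ hκ hκ2 A1 hA1
  obtain ⟨A0b, T7, hA0b, hT7, hgz⟩ := hgz Kc δ2 W' A1 hKc hδ2 (by linarith) (by linarith)
  refine ⟨max A0a A0b, δ2, c4 / 320, max (max (max T1 T2) (max T3 T4)) (max (max T5 T6)
    (max T7 (max (320 * δ2 / c4 + 1) (max W' (80 * δ2))))), hA0a.trans (le_max_left _ _), hδ2,
    by positivity, hT1.trans ((le_max_left _ _).trans ((le_max_left _ _).trans (le_max_left _ _))),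
    ?_⟩
  intro T μ hT hμ hA hδ
  simp only [max_le_iff] at hT hA
  obtain ⟨⟨⟨b1, b2⟩, b3, b4⟩, ⟨b5, b6⟩, b7, b8, b9, b10⟩ := hT
  obtain ⟨hAa, hAb⟩ := hA
  have hT10 : 10 ≤ T := hT1.trans b1
  have hTp : 0 < T := by linarith
  obtain ⟨L, hL⟩ : ∃ L : ℝ, L = Real.log T := ⟨_, rfl⟩
  have hLp : 0 < L := by rw [hL]; exact Real.log_pos (by linarith)
  have hreg' := hreg T b5
  have htl' := htl T b2
  have hms' := hms T b1
  have hph' := fun t => hph T t μ b6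
  have hgz' := fun t Γ => hgz T t μ Γ (1 / κ) b7
  have hns' := fun t => hns T t b3
  have hsgb' := fun t => hsgb T t W W' b4
  rw [← hL] at hreg' htl' hms' hns' hsgb' hAa hAb hδ ⊢
  obtain ⟨R, hR⟩ : ∃ R : ℝ, R = 40 * (μ * L) := ⟨_, rfl⟩
  have hRp : 0 < R := by rw [hR]; positivity
  have hR2 : 2 * R ≤ 80 * δ2 := by rw [hR]; linarith
  have hR3 : 2 * R < c4 / 4 * T := by
    have h1 : 320 * δ2 / c4 < T := by linarith
    rw [div_lt_iff₀ hc4] at h1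
    linarith
  obtain ⟨Λ, hΛ⟩ : ∃ Λ : ℝ, Λ = c3 * L ^ 2 / (40 * (W * Real.sqrt W)) := ⟨_, rfl⟩
  have hΛp : 0 < Λ := by rw [hΛ]; positivity
  -- the sets
  set X : Set ℝ := {t : ℝ | t ∈ Icc (T + R) (2 * T - R) ∧ ¬ RW t R μ} with hX
  set X1 : Set ℝ := {t : ℝ | t ∈ Icc T (2 * T) ∧ ¬ (CF t (A1 / L) (1 / κ) ∧
      ∀ z ∈ Kt t (A1 / L) 4 (1 / κ), ‖P z - (L / 2 : ℝ)‖ ≤ κ * L)} with hX1
  set X2 : Set ℝ := {t : ℝ | t ∈ Icc T (2 * T) ∧ Λ < TL T W' t} with hX2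
  set X3 : Set ℝ := {t : ℝ | t ∈ Icc T (2 * T) ∧ ‖SG T W t‖ < c3 * (L / Real.sqrt W)} with hX3
  have hcov : Icc T (2 * T) ⊆ ((((Icc T (T + R) ∪ Icc (2 * T - R) (2 * T)) ∪ X) ∪ X1) ∪ X2) ∪ X3 := by
    intro t ht
    by_cases h1 : t ≤ T + R
    · exact Or.inl (Or.inl (Or.inl (Or.inl (Or.inl ⟨ht.1, h1⟩))))
    by_cases h2 : 2 * T - R ≤ t
    · exact Or.inl (Or.inl (Or.inl (Or.inl (Or.inr ⟨h2, ht.2⟩))))
    push Not at h1 h2
    by_cases h3 : RW t R μ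
    swap
    · exact Or.inl (Or.inl (Or.inl (Or.inr ⟨⟨h1.le, h2.le⟩, h3⟩)))
    by_cases h4 : CF t (A1 / L) (1 / κ) ∧
        ∀ z ∈ Kt t (A1 / L) 4 (1 / κ), ‖P z - (L / 2 : ℝ)‖ ≤ κ * L
    swap
    · exact Or.inl (Or.inl (Or.inr ⟨ht, h4⟩))
    by_cases h5 : Λ < TL T W' t
    · exact Or.inl (Or.inr ⟨ht, h5⟩)
    push Not at h5
    refine Or.inr ⟨ht, ?_⟩
    have hRg : Rg T t A1 (1 / κ) κ := by
      refine ⟨?_, ?_⟩
      · rw [← hL]; exact h4.1
      · rw [← hL]; exact h4.2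
    have hHr := hph' t ht.1 ht.2 hRg hμ (by rw [← hL]; exact hAa) (by rw [← hL]; exact hδ)
      (by rw [← hL, ← hR]; exact h3)
    have hG := hgz' t (Gm T t μ) ht.1 ht.2 hμ (by rw [← hL]; exact hAb) (by rw [← hL]; exact hδ)
      hM (by rw [← hL]; exact h4.1) hHr
    have hN := hns' t ht.1 ht.2 hG
    have hS := hsgb' t ht.1 ht.2 hW64 (by linarith) hN
    exact sg_small hLp hW64 hc3 hW2 (by rw [← hΛ]; exact h5) hS
  have hm1 : volume X1 ≤ ENNReal.ofReal (c4 / 4 * T) := hreg'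
  have hm2 : volume X2 ≤ ENNReal.ofReal (c4 / 4 * T) := by
    refine (htl' W' Λ (by linarith) b9 hΛp).trans (ENNReal.ofReal_le_ofReal ?_)
    rw [hΛ]
    have h1 : 160 * C * (W * Real.sqrt W) ≤ W' * (c3 * c4) := by
      rwa [div_le_iff₀ (by positivity)] at hW'2
    have h2 : C * T * L ^ 2 / (W' * (c3 * L ^ 2 / (40 * (W * Real.sqrt W)))) =
        T * (40 * C * (W * Real.sqrt W)) / (W' * c3) := by
      have : W' ≠ 0 := by linarith
      field_simp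
    rw [h2, div_le_iff₀ (by nlinarith)]
    nlinarith
  have hm3 : volume X3 ≤ ENNReal.ofReal ((1 - c4) * T) := by
    refine hms'.trans (ENNReal.ofReal_le_ofReal ?_)
    apply mul_le_mul_of_nonneg_right _ hTp.le
    linarith
  have hmX : ENNReal.ofReal (c4 / 4 * T) ≤ volume X := by
    by_contra hcon
    push Not at hcon
    have h1 : volume (Icc T (2 * T)) ≤ ENNReal.ofReal R + ENNReal.ofReal R +
        ENNReal.ofReal (c4 / 4 * T) + ENNReal.ofReal (c4 / 4 * T) + ENNReal.ofReal (c4 / 4 * T) +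
        ENNReal.ofReal ((1 - c4) * T) := by
      refine (measure_mono hcov).trans ?_
      refine (measure_union_le _ _).trans (add_le_add ?_ hm3)
      refine (measure_union_le _ _).trans (add_le_add ?_ hm2)
      refine (measure_union_le _ _).trans (add_le_add ?_ hm1)
      refine (measure_union_le _ _).trans (add_le_add ?_ hcon.le)
      refine (measure_union_le _ _).trans (add_le_add ?_ ?_)
      · rw [Real.volume_Icc]
        exact ENNReal.ofReal_le_ofReal (by linarith)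
      · rw [Real.volume_Icc]
        exact ENNReal.ofReal_le_ofReal (by linarith)
    rw [Real.volume_Icc, ← ENNReal.ofReal_add hRp.le hRp.le,
      ← ENNReal.ofReal_add (by positivity) (by positivity),
      ← ENNReal.ofReal_add (by positivity) (by positivity),
      ← ENNReal.ofReal_add (by positivity) (by positivity),
      ← ENNReal.ofReal_add (by positivity) (mul_nonneg (by linarith) hTp.le),
      ENNReal.ofReal_le_ofReal_iff (by
        have : 0 ≤ (1 - c4) * T := mul_nonneg (by linarith) hTp.le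
        positivity)] at h1
    linarith
  obtain ⟨S, hS1, hS2⟩ := hoffc T R μ (c4 / 4 * T) hμ hRp (by linarith) (by positivity) hmX
  refine ⟨S, hS1, ?_⟩
  rw [div_le_iff₀ (by positivity)]
  rw [hR] at hS2
  linarith

end Pool.Agent.H466.HN
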